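import Pool.Agent.helper46.T1.SpecP
import Pool.Agent.helper62.MS.SpecD

set_option autoImplicit false

open scoped MatrixGroups ContDiff Topology UpperHalfPlane ComplexConjugate
open UpperHalfPlane MeasureTheory Filter Set

namespace Pool.Agent.TP

open Pool.Agent.RS Pool.Agent.MS

lemma PIN_am (s t : ℝ) : aM s * aM t = aM (s + t) := by
  apply Subtype.ext
  rw [Matrix.SpecialLinearGroup.coe_mul]
  have h1 : Real.exp (s / 2) * Real.exp (t / 2) = Real.exp ((s + t) / 2) := by
    rw [← Real.exp_add]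
    congr 1
    ring
  have h2 : Real.exp (-(s / 2)) * Real.exp (-(t / 2)) = Real.exp (-((s + t) / 2)) := by
    rw [← Real.exp_add]
    congr 1
    ring
  ext i j
  fin_cases i <;> fin_cases j <;> simp [aM, Matrix.mul_apply, Fin.sum_univ_two, h1, h2]

lemma PIN_exp {r s a : ℝ} (hr : 0 < r) (h : a ≤ Real.log r - s) : Real.exp a ≤ r * Real.exp (-s) := by
  calc Real.exp a ≤ Real.exp (Real.log r - s) := Real.exp_le_exp.mpr h
    _ = r * Real.exp (-s) := by rw [sub_eq_add_neg, Real.exp_add, Real.exp_log hr]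

/-- **Row PIN** (approximate stationarity). -/
theorem PIN_proof (hPSF : PSF_stmt) (hPAV : PAV_stmt) (hINW : MS.INW_stmt) : PIN_stmt := by
  intro Γ F β α hΓ hF hβ hα C η hC hη
  obtain ⟨K, r1, hK, hr1, hI⟩ := hINW Γ F β α hΓ hF hβ hα
  have hK0 : 0 < K := by linarith
  have hC0 : 0 < C := by linarith
  obtain ⟨s0, hs0, hs0'⟩ : ∃ s0 : ℝ, 0 ≤ s0 ∧ 8 * K * C ^ 2 * Real.exp (-s0) ≤ η := by
    refine ⟨max 0 (Real.log (8 * K * C ^ 2 / η)), le_max_left _ _, ?_⟩
    have hpos : 0 < 8 * K * C ^ 2 / η := by positivity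
    have h1 : Real.exp (-(max 0 (Real.log (8 * K * C ^ 2 / η)))) ≤ (8 * K * C ^ 2 / η)⁻¹ := by
      calc Real.exp (-(max 0 (Real.log (8 * K * C ^ 2 / η)))) ≤ Real.exp (-Real.log (8 * K * C ^ 2 / η)) :=
            Real.exp_le_exp.mpr (neg_le_neg (le_max_right _ _))
        _ = (8 * K * C ^ 2 / η)⁻¹ := by rw [Real.exp_neg, Real.exp_log hpos]
    calc 8 * K * C ^ 2 * Real.exp (-(max 0 (Real.log (8 * K * C ^ 2 / η))))
        ≤ 8 * K * C ^ 2 * (8 * K * C ^ 2 / η)⁻¹ := mul_le_mul_of_nonneg_left h1 (by positivity)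
      _ = η := by
          field_simp
  obtain ⟨r2, hr2⟩ : ∃ r2 : ℝ, ∀ r : ℝ, r2 ≤ r → 1 ≤ r → K * (Real.log r / r) ≤ η / 2 := by
    have h := (Real.isLittleO_log_id_atTop.bound (show 0 < η / (2 * K) by positivity))
    obtain ⟨r2, h2⟩ := Filter.eventually_atTop.mp h
    refine ⟨r2, fun r hr hr1 => ?_⟩
    have h3 := h2 r hr
    have hr0 : 0 < r := by linarith
    rw [id, Real.norm_eq_abs, Real.norm_eq_abs, abs_of_pos hr0] at h3
    have h4 : Real.log r ≤ η / (2 * K) * r := (le_abs_self _).trans h3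
    have h5 : Real.log r / r ≤ η / (2 * K) := by
      rw [div_le_iff₀ hr0]
      exact h4
    calc K * (Real.log r / r) ≤ K * (η / (2 * K)) := mul_le_mul_of_nonneg_left h5 hK0.le
      _ = η / 2 := by
          field_simp
  refine ⟨s0, hs0, fun s hs => ⟨max r1 (max r2 1), (le_max_right r2 1).trans (le_max_right _ _), ?_⟩⟩
  intro n κ κa κn κl χ χ' ζ ζ' r φ hn0 hSF hκ hκn hκl hχ hζ hr hφ hnn W hW
  have hrr1 : r1 ≤ r := (le_max_left _ _).trans hr
  have hrr2 : r2 ≤ r := ((le_max_left _ _).trans (le_max_right _ _)).trans hr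
  have hr11 : 1 ≤ r := ((le_max_right _ _).trans (le_max_right _ _)).trans hr
  have hr0 : 0 < r := by linarith
  have hlogr := hr2 r hrr2 hr11
  have hsn : 0 ≤ s := hs0.trans hs
  have hes : 8 * K * C ^ 2 * Real.exp (-s) ≤ η :=
    (mul_le_mul_of_nonneg_left (Real.exp_le_exp.mpr (neg_le_neg hs)) (by positivity)).trans hs0'
  -- the general estimate
  have key : ∀ (Ψ Ψa Ψn Ψl : SL(2, ℝ) → ℝ) (Bl : ℝ), SF Γ Ψ Ψa Ψn Ψl → (∀ g, |Ψ g| ≤ 1) → (∀ g, |Ψn g| ≤ 2 * C ^ 2) →
      (∀ g, |Ψl g| ≤ Bl) → ∀ t t' : ℝ, s ≤ t → s ≤ t' → t ≤ Real.log r → t' ≤ Real.log r →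
      Bl * Real.exp t ≤ 2 * C ^ 2 * (r * Real.exp (-s)) → Bl * Real.exp t' ≤ 2 * C ^ 2 * (r * Real.exp (-s)) →
      |Ev F β α r φ (fun g => Ψ (g * aM t)) - Ev F β α r φ (fun g => Ψ (g * aM t'))| ≤ η := by
    intro Ψ Ψa Ψn Ψl Bl hΨ h1 hn hl
    have main : ∀ t t' : ℝ, s ≤ t → t ≤ t' → t' ≤ Real.log r → Bl * Real.exp t' ≤ 2 * C ^ 2 * (r * Real.exp (-s)) →
        |Ev F β α r φ (fun g => Ψ (g * aM t')) - Ev F β α r φ (fun g => Ψ (g * aM t))| ≤ η := by
      intro t t' ht htt' ht' hB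
      have h2 := hI r φ hrr1 hφ Ψ Ψa Ψn Ψl (2 * C ^ 2) Bl hΨ h1 hn hl t t' (hsn.trans ht) htt'
      rw [hnn, mul_one] at h2
      unfold Ev
      refine h2.trans ?_
      have e1 : Real.exp (-t) ≤ Real.exp (-s) := Real.exp_le_exp.mpr (neg_le_neg ht)
      have e2 : (t' + Bl * Real.exp t') / r ≤ Real.log r / r + 2 * C ^ 2 * Real.exp (-s) := by
        rw [div_le_iff₀ hr0, add_mul, div_mul_cancel₀ _ hr0.ne']
        have : 2 * C ^ 2 * Real.exp (-s) * r = 2 * C ^ 2 * (r * Real.exp (-s)) := by ring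
        rw [this]
        linarith
      have e3 : 2 * C ^ 2 * Real.exp (-t) ≤ 2 * C ^ 2 * Real.exp (-s) := mul_le_mul_of_nonneg_left e1 (by positivity)
      calc K * (2 * C ^ 2 * Real.exp (-t) + (t' + Bl * Real.exp t') / r)
          ≤ K * (2 * C ^ 2 * Real.exp (-s) + (Real.log r / r + 2 * C ^ 2 * Real.exp (-s))) :=
            mul_le_mul_of_nonneg_left (add_le_add e3 e2) hK0.le
        _ = (8 * K * C ^ 2 * Real.exp (-s)) / 2 + K * (Real.log r / r) := by ring
        _ ≤ η := by linarith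
    intro t t' ht ht' htl htl' hBt hBt'
    rcases le_total t t' with h | h
    · rw [abs_sub_comm]
      exact main t t' ht h htl' hBt'
    · exact main t' t ht' h htl hBt
  obtain ⟨hav, _, Aa, An, Al, hASF, hAa, hAn, hAl⟩ := hPAV Γ κ κa κn κl W C (C * Real.exp n) hSF hκ hκn hκl (by linarith)
  have hAn' : ∀ g, |An g| ≤ C := fun g => (hAn g).trans (div_le_self hC0.le hW)
  have hAl' : ∀ g, |Al g| ≤ C * Real.exp n * Real.exp W := fun g => (hAl g).trans (div_le_self (by positivity) hW)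
  have hCC : C ≤ C ^ 2 := by nlinarith
  have hE0 : 0 < r * Real.exp (-s) := by positivity
  have hcomp : ∀ (f f' : ℝ → ℝ), CB C f f' → ∀ g, |f' (av κ W g) * An g| ≤ C ^ 2 := by
    intro f f' hf g
    rw [abs_mul, sq]
    exact mul_le_mul (hf.bd _) (hAn' g) (abs_nonneg _) hC0.le
  have hcompl : ∀ (f f' : ℝ → ℝ), CB C f f' → ∀ g, |f' (av κ W g) * Al g| ≤ C ^ 2 * Real.exp n * Real.exp W := by
    intro f f' hf g
    rw [abs_mul]
    calc |f' (av κ W g)| * |Al g| ≤ C * (C * Real.exp n * Real.exp W) := mul_le_mul (hf.bd _) (hAl' g) (abs_nonneg _) hC0.le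
      _ = C ^ 2 * Real.exp n * Real.exp W := by ring
  have hunit : ∀ x : ℝ, 0 ≤ x → x ≤ 1 → |x| ≤ 1 := fun x h0 h1 => by rw [abs_of_nonneg h0]; exact h1
  have hmul1 : ∀ x y B : ℝ, |x| ≤ B → |y| ≤ 1 → |x * y| ≤ B := by
    intro x y B hx hy
    rw [abs_mul]
    calc |x| * |y| ≤ B * 1 := mul_le_mul hx hy (abs_nonneg _) ((abs_nonneg _).trans hx)
      _ = B := mul_one B
  have hmul2 : ∀ x y B : ℝ, |x| ≤ 1 → |y| ≤ B → |x * y| ≤ B := by
    intro x y B hx hy
    rw [mul_comm]
    exact hmul1 y x B hy hx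
  have hadd : ∀ x y B B' : ℝ, |x| ≤ B → |y| ≤ B' → |x + y| ≤ B + B' := fun x y B B' hx hy => (abs_add_le x y).trans (add_le_add hx hy)
  refine ⟨?_, ?_, ?_⟩
  · intro t t' h1 h2 h3 h4
    have hS := (hPSF Γ _ _ _ _ hASF).2.2.2 ζ ζ' hζ.ct hζ.dv
    have hBt : ∀ a : ℝ, a + W ≤ Real.log r - n - s → C ^ 2 * Real.exp n * Real.exp W * Real.exp a ≤ 2 * C ^ 2 * (r * Real.exp (-s)) := by
      intro a ha
      have e1 : Real.exp (n + W + a) ≤ r * Real.exp (-s) := PIN_exp hr0 (by linarith)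
      calc C ^ 2 * Real.exp n * Real.exp W * Real.exp a = C ^ 2 * Real.exp (n + W + a) := by
            rw [Real.exp_add, Real.exp_add]
            ring
        _ ≤ C ^ 2 * (r * Real.exp (-s)) := mul_le_mul_of_nonneg_left e1 (by positivity)
        _ ≤ 2 * C ^ 2 * (r * Real.exp (-s)) := by nlinarith [mul_pos (pow_pos hC0 2) hE0]
    exact key _ _ _ _ _ hS (fun g => hunit _ (hζ.rg _).1 (hζ.rg _).2) (fun g => (hcomp ζ ζ' hζ g).trans (by nlinarith))
      (fun g => hcompl ζ ζ' hζ g) t t' h1 h2 (by linarith) (by linarith) (hBt t h3) (hBt t' h4)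
  · intro t t' u h1 h2 h3 h4 h5 h6 h7 h8
    have hX := (hPSF Γ _ _ _ _ hASF).2.2.2 χ χ' hχ.ct hχ.dv
    have hBt : ∀ a : ℝ, a + W ≤ Real.log r - n - s → a + u ≤ Real.log r - n - s →
        C ^ 2 * Real.exp (n + W + a) + C * Real.exp (n + (a + u)) ≤ 2 * C ^ 2 * (r * Real.exp (-s)) := by
      intro a ha ha'
      have e1 : Real.exp (n + W + a) ≤ r * Real.exp (-s) := PIN_exp hr0 (by linarith)
      have e2 : Real.exp (n + (a + u)) ≤ r * Real.exp (-s) := PIN_exp hr0 (by linarith)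
      calc C ^ 2 * Real.exp (n + W + a) + C * Real.exp (n + (a + u))
          ≤ C ^ 2 * (r * Real.exp (-s)) + C ^ 2 * (r * Real.exp (-s)) :=
            add_le_add (mul_le_mul_of_nonneg_left e1 (by positivity)) (mul_le_mul hCC e2 (Real.exp_pos _).le (by positivity))
        _ = 2 * C ^ 2 * (r * Real.exp (-s)) := by ring
    rcases le_or_gt 0 u with hu | hu
    · have hT := (hPSF Γ _ _ _ _ hSF).1 u
      have hO := (hPSF Γ _ _ _ _ hT).2.2.1
      have hP := (hPSF Γ _ _ _ _ hX).2.1 _ _ _ _ hO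
      have heu : Real.exp (-u) ≤ 1 := Real.exp_le_one_iff.mpr (by linarith)
      have hfin := key _ _ _ _ (C ^ 2 * Real.exp n * Real.exp W + Real.exp u * (C * Real.exp n)) hP
        (fun g => hmul1 _ _ _ (hunit _ (hχ.rg _).1 (hχ.rg _).2) (hunit _ (by linarith [(hκ (g * aM u)).2]) (by linarith [(hκ (g * aM u)).1])))
        (fun g => by
          have q1 := hmul1 _ (1 - κ (g * aM u)) _ (hcomp χ χ' hχ g) (hunit _ (by linarith [(hκ (g * aM u)).2]) (by linarith [(hκ (g * aM u)).1]))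
          have q2 : |-(Real.exp (-u) * κn (g * aM u))| ≤ C := by
            rw [abs_neg, abs_mul, abs_of_pos (Real.exp_pos _)]
            calc Real.exp (-u) * |κn (g * aM u)| ≤ 1 * C := mul_le_mul heu (hκn _) (abs_nonneg _) zero_le_one
              _ = C := one_mul C
          have q3 := hmul2 (χ (av κ W g)) _ _ (hunit _ (hχ.rg _).1 (hχ.rg _).2) q2
          have q4 := hadd _ _ _ _ q1 q3
          exact q4.trans (by linarith))
        (fun g => by
          have q1 := hmul1 _ (1 - κ (g * aM u)) _ (hcompl χ χ' hχ g) (hunit _ (by linarith [(hκ (g * aM u)).2]) (by linarith [(hκ (g * aM u)).1]))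
          have q2 : |-(Real.exp u * κl (g * aM u))| ≤ Real.exp u * (C * Real.exp n) := by
            rw [abs_neg, abs_mul, abs_of_pos (Real.exp_pos _)]
            exact mul_le_mul_of_nonneg_left (hκl _) (Real.exp_pos _).le
          have q3 := hmul2 (χ (av κ W g)) _ _ (hunit _ (hχ.rg _).1 (hχ.rg _).2) q2
          exact hadd _ _ _ _ q1 q3) t t' h1 h2 (by linarith) (by linarith)
        (by
          refine le_trans (le_of_eq ?_) (hBt t h3 h7)
          rw [Real.exp_add, Real.exp_add, Real.exp_add, Real.exp_add]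
          ring)
        (by
          refine le_trans (le_of_eq ?_) (hBt t' h4 h8)
          rw [Real.exp_add, Real.exp_add, Real.exp_add, Real.exp_add]
          ring)
      simp only [mul_assoc, PIN_am] at hfin ⊢
      exact hfin
    · have hT := (hPSF Γ _ _ _ _ hX).1 (-u)
      have hO := (hPSF Γ _ _ _ _ hSF).2.2.1
      have hP := (hPSF Γ _ _ _ _ hT).2.1 _ _ _ _ hO
      have heu : Real.exp u ≤ 1 := Real.exp_le_one_iff.mpr hu.le
      have hfin := key _ _ _ _ (Real.exp (-u) * (C ^ 2 * Real.exp n * Real.exp W) + C * Real.exp n) hP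
        (fun g => hmul1 _ _ _ (hunit _ (hχ.rg _).1 (hχ.rg _).2) (hunit _ (by linarith [(hκ g).2]) (by linarith [(hκ g).1])))
        (fun g => by
          have q0 : |Real.exp (- -u) * (χ' (av κ W (g * aM (-u))) * An (g * aM (-u)))| ≤ C ^ 2 := by
            rw [neg_neg]
            exact hmul2 _ _ _ (hunit _ (Real.exp_pos _).le heu) (hcomp χ χ' hχ (g * aM (-u)))
          have q1 := hmul1 _ (1 - κ g) _ q0 (hunit _ (by linarith [(hκ g).2]) (by linarith [(hκ g).1]))
          have q2 : |-(κn g)| ≤ C := by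
            rw [abs_neg]
            exact hκn g
          have q3 := hmul2 (χ (av κ W (g * aM (-u)))) _ _ (hunit _ (hχ.rg _).1 (hχ.rg _).2) q2
          have q4 := hadd _ _ _ _ q1 q3
          exact q4.trans (by linarith))
        (fun g => by
          have q0 : |Real.exp (-u) * (χ' (av κ W (g * aM (-u))) * Al (g * aM (-u)))| ≤ Real.exp (-u) * (C ^ 2 * Real.exp n * Real.exp W) := by
            rw [abs_mul, abs_of_pos (Real.exp_pos _)]
            exact mul_le_mul_of_nonneg_left (hcompl χ χ' hχ (g * aM (-u))) (Real.exp_pos _).le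
          have q1 := hmul1 _ (1 - κ g) _ q0 (hunit _ (by linarith [(hκ g).2]) (by linarith [(hκ g).1]))
          have q2 : |-(κl g)| ≤ C * Real.exp n := by
            rw [abs_neg]
            exact hκl g
          have q3 := hmul2 (χ (av κ W (g * aM (-u)))) _ _ (hunit _ (hχ.rg _).1 (hχ.rg _).2) q2
          exact hadd _ _ _ _ q1 q3) (t + u) (t' + u) h5 h6 (by linarith) (by linarith)
        (by
          refine le_trans (le_of_eq ?_) (hBt t h3 h7)
          rw [Real.exp_add (n + W) t, Real.exp_add n W, Real.exp_add n (t + u), Real.exp_add t u, Real.exp_neg]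
          field_simp)
        (by
          refine le_trans (le_of_eq ?_) (hBt t' h4 h8)
          rw [Real.exp_add (n + W) t', Real.exp_add n W, Real.exp_add n (t' + u), Real.exp_add t' u, Real.exp_neg]
          field_simp)
      simp only [mul_assoc, PIN_am, add_neg_cancel_right] at hfin ⊢
      exact hfin
  · intro t t' h1 h2 h3 h4
    have hBt : ∀ a : ℝ, a ≤ Real.log r - n - s → C * Real.exp n * Real.exp a ≤ 2 * C ^ 2 * (r * Real.exp (-s)) := by
      intro a ha
      have e1 : Real.exp (n + a) ≤ r * Real.exp (-s) := PIN_exp hr0 (by linarith)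
      calc C * Real.exp n * Real.exp a = C * Real.exp (n + a) := by
            rw [Real.exp_add]
            ring
        _ ≤ (2 * C ^ 2) * (r * Real.exp (-s)) := mul_le_mul (by nlinarith) e1 (Real.exp_pos _).le (by positivity)
    exact key _ _ _ _ _ hSF (fun g => hunit _ (hκ g).1 (hκ g).2) (fun g => (hκn g).trans (by nlinarith))
      hκl t t' h1 h2 (by linarith) (by linarith) (hBt t h3) (hBt t' h4)

end Pool.Agent.TP
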