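import Pool.Agent.helper47.T1.SpecE1

set_option autoImplicit false

open scoped MatrixGroups ContDiff Topology UpperHalfPlane ComplexConjugate
open UpperHalfPlane MeasureTheory Filter Set

namespace Pool.Agent.T1

open Pool.Agent.RS Pool.Agent.MS

lemma QFA_mono {J : ℕ} {M N : ℝ} {β : ℝ → ℝ} (h : SBM J M β) (hMN : M ≤ N) : SBM J N β :=
  ⟨h.sb, fun j hj x => (h.bd j hj x).trans hMN⟩

lemma QFA_nn (F : Set ℍ) (u : ℍ → ℂ) : 0 ≤ nn F u := by
  unfold nn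
  exact integral_nonneg fun z => by positivity

/-- the elementary estimate of the error -/
lemma QFA_err {K0 N r T : ℝ} (hK0 : 1 ≤ K0) (hN : 1 ≤ N) (hr : (K0 * N ^ 4) ^ 20 ≤ r) (hT : T ≤ 1 / 400 * Real.log r) :
    K0 * (N * Real.exp (5 * T)) ^ 4 * r ^ (-(1 / 8) : ℝ) ≤ r ^ (-(1 / 400) : ℝ) := by
  have hA : 1 ≤ K0 * N ^ 4 := one_le_mul_of_one_le_of_one_le hK0 (one_le_pow₀ hN)
  have hr1 : 1 ≤ r := le_trans (one_le_pow₀ hA) hr
  have hr0 : 0 < r := by linarith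
  have h1 : (N * Real.exp (5 * T)) ^ 4 = N ^ 4 * Real.exp (20 * T) := by
    rw [mul_pow, ← Real.exp_nat_mul]
    norm_num
    left
    ring
  have h2 : Real.exp (20 * T) ≤ r ^ (1 / 20 : ℝ) := by
    rw [Real.rpow_def_of_pos hr0]
    apply Real.exp_le_exp.mpr
    linarith
  have h3 : K0 * N ^ 4 ≤ r ^ (1 / 20 : ℝ) := by
    have key : ∀ a : ℝ, 0 ≤ a → a = (a ^ 20) ^ (1 / 20 : ℝ) := fun a ha => by
      rw [← Real.rpow_natCast a 20, ← Real.rpow_mul ha]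
      norm_num
    rw [key (K0 * N ^ 4) (by linarith)]
    exact Real.rpow_le_rpow (by positivity) hr (by norm_num)
  have h4 : 0 ≤ r ^ (-(1 / 8) : ℝ) := Real.rpow_nonneg hr0.le _
  calc K0 * (N * Real.exp (5 * T)) ^ 4 * r ^ (-(1 / 8) : ℝ)
      = (K0 * N ^ 4) * Real.exp (20 * T) * r ^ (-(1 / 8) : ℝ) := by rw [h1]; ring
    _ ≤ r ^ (1 / 20 : ℝ) * r ^ (1 / 20 : ℝ) * r ^ (-(1 / 8) : ℝ) := by
        apply mul_le_mul_of_nonneg_right _ h4
        exact mul_le_mul h3 h2 (Real.exp_pos _).le (Real.rpow_nonneg hr0.le _)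
    _ = r ^ (1 / 20 + 1 / 20 + -(1 / 8) : ℝ) := by
        rw [Real.rpow_add hr0, Real.rpow_add hr0]
    _ ≤ r ^ (-(1 / 400) : ℝ) := by
        apply Real.rpow_le_rpow_of_exponent_le hr1
        norm_num

/-- **Row QFA** (E1). -/
theorem QFA_proof (h1 : QFR_stmt) (h2 : QST_stmt) : QFA_stmt := by
  obtain ⟨K0, hK0, hF⟩ := h1
  intro M
  set N : ℝ := max 1 M with hNdef
  have hN1 : 1 ≤ N := le_max_left _ _
  have hMN : M ≤ N := le_max_right _ _
  have hA : 1 ≤ K0 * N ^ 4 := one_le_mul_of_one_le_of_one_le hK0 (one_le_pow₀ hN1)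
  refine ⟨max K0 ((K0 * N ^ 4) ^ 20), 1 / 400, le_trans hK0 (le_max_left _ _), by norm_num, by norm_num, ?_⟩
  intro β α hβ hα hBβ hBα Γ F r T hΓ hFd hr hT0 hT
  have hrK : K0 ≤ r := le_trans (le_max_left _ _) hr
  have hrA : (K0 * N ^ 4) ^ 20 ≤ r := le_trans (le_max_right _ _) hr
  have hE := QFA_err hK0 hN1 hrA hT
  obtain ⟨hst, hint⟩ := h2.1 β N T (QFA_mono hβ hMN) hT0
  have hNe : N ≤ N * Real.exp (5 * T) := le_mul_of_one_le_right (by linarith) (Real.one_le_exp (by linarith))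
  have hα' : SBM 4 (N * Real.exp (5 * T)) α := QFA_mono (QFA_mono hα hMN) hNe
  obtain ⟨ha, hb⟩ := hF (st (-T) β) α _ hst hα' Γ F r hΓ hFd hrK
  rw [hint, hBβ.2] at ha hb
  rw [hBα.2.2] at hb
  refine ⟨fun u hu => (ha hBα u hu).trans ?_, fun φ hφ => ?_⟩
  · exact mul_le_mul_of_nonneg_right (by linarith) (QFA_nn F u)
  · have := hb φ hφ
    rw [one_pow, one_mul, one_mul] at this
    exact this.trans (mul_le_mul_of_nonneg_right hE (QFA_nn F φ))

end Pool.Agent.T1
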